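import Mathlib
import Pool.Agent.MP_36f78e_lc.H75.Spec

/-!
A clipped sum of signs is bounded, has small differences and is concentrated in low degree.
-/

namespace Pool.Agent.MP_36f78e_lc.H40

open Pool.Agent.MP_36f78e_lc.H75 Finset
open scoped BigOperators

theorem rs_comm {n : ℕ} (a z : Fin n → Bool) : rs a z = rs z a := by
  unfold rs
  refine Finset.prod_congr rfl fun i _ => ?_
  simp only [and_comm]

theorem rs_orth {n : ℕ} (a b : Fin n → Bool) :
    ∑ z : Fin n → Bool, rs a z * rs b z = if a = b then (2 : ℝ) ^ n else 0 := by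
  have h1 : ∀ z : Fin n → Bool, rs a z * rs b z =
      ∏ i, ((if a i = true ∧ z i = true then (-1 : ℝ) else 1) *
        (if b i = true ∧ z i = true then (-1 : ℝ) else 1)) := by
    intro z
    unfold rs
    rw [Finset.prod_mul_distrib]
  simp only [h1]
  have h2 := Finset.prod_univ_sum (fun _ : Fin n => (univ : Finset Bool))
    (fun i t => (if a i = true ∧ t = true then (-1 : ℝ) else 1) *
        (if b i = true ∧ t = true then (-1 : ℝ) else 1))
  rw [Fintype.piFinset_univ] at h2
  rw [← h2]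
  split_ifs with hab
  · subst hab
    have : ∀ i : Fin n, (∑ t : Bool, (if a i = true ∧ t = true then (-1 : ℝ) else 1) *
        (if a i = true ∧ t = true then (-1 : ℝ) else 1)) = 2 := by
      intro i
      cases h : a i <;> simp <;> norm_num
    simp only [this]
    simp
  · obtain ⟨i, hi⟩ := Function.ne_iff.mp hab
    refine Finset.prod_eq_zero (Finset.mem_univ i) ?_
    cases h : a i <;> cases h' : b i <;> simp_all

theorem parseval {n : ℕ} (f : (Fin n → Bool) → ℝ) :
    ∑ e : Fin n → Bool, (∑ z, f z * rs e z) ^ 2 = 2 ^ n * ∑ z, f z ^ 2 := by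
  have h1 : ∀ e : Fin n → Bool, (∑ z, f z * rs e z) ^ 2 =
      ∑ z, ∑ y, f z * f y * (rs z e * rs y e) := by
    intro e
    rw [sq, Finset.sum_mul_sum]
    refine Finset.sum_congr rfl fun z _ => Finset.sum_congr rfl fun y _ => ?_
    rw [rs_comm e z, rs_comm e y]
    ring
  simp only [h1]
  rw [Finset.sum_comm, Finset.mul_sum]
  refine Finset.sum_congr rfl fun z _ => ?_
  rw [Finset.sum_comm]
  simp only [← Finset.mul_sum, rs_orth]
  simp only [mul_ite, mul_zero, Finset.sum_ite_eq, Finset.mem_univ, if_true]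
  ring

/-- Flip of one coordinate. -/
def flip {n : ℕ} (l : Fin n) (z : Fin n → Bool) : Fin n → Bool := Function.update z l (!z l)

theorem flip_flip {n : ℕ} (l : Fin n) (z : Fin n → Bool) : flip l (flip l z) = z := by
  funext i
  unfold flip
  by_cases h : i = l
  · subst h
    simp
  · simp [Function.update_of_ne h]

theorem rs_flip {n : ℕ} (l : Fin n) (e z : Fin n → Bool) :
    rs e (flip l z) = (if e l = true then -1 else 1) * rs e z := by
  unfold rs
  rw [← Finset.mul_prod_erase univ _ (Finset.mem_univ l),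
    ← Finset.mul_prod_erase univ (fun i => if e i = true ∧ z i = true then (-1 : ℝ) else 1)
      (Finset.mem_univ l), ← mul_assoc]
  congr 1
  · unfold flip
    cases h : e l <;> cases h' : z l <;> simp
  · refine Finset.prod_congr rfl fun i hi => ?_
    have : i ≠ l := (Finset.mem_erase.mp hi).1
    unfold flip
    rw [Function.update_of_ne this]

theorem coef_diff {n : ℕ} (h : (Fin n → Bool) → ℝ) (l : Fin n) (e : Fin n → Bool) :
    ∑ z, ((h z - h (flip l z)) / 2) * rs e z =
      if e l = true then ∑ z, h z * rs e z else 0 := by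
  have h1 : ∑ z, h (flip l z) * rs e z =
      (if e l = true then -1 else 1) * ∑ z, h z * rs e z := by
    rw [Finset.mul_sum]
    refine Finset.sum_bij' (fun z _ => flip l z) (fun z _ => flip l z) (by simp) (by simp)
      (fun z _ => flip_flip l z) (fun z _ => flip_flip l z) ?_
    intro z _
    rw [rs_flip]
    split_ifs <;> ring
  have h2 : ∑ z, ((h z - h (flip l z)) / 2) * rs e z =
      (∑ z, h z * rs e z - ∑ z, h (flip l z) * rs e z) / 2 := by
    rw [← Finset.sum_sub_distrib, Finset.sum_div]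
    refine Finset.sum_congr rfl fun z _ => by ring
  rw [h2, h1]
  split_ifs <;> ring

theorem influence {n : ℕ} (h : (Fin n → Bool) → ℝ) (d : ℝ)
    (hd : ∀ z l, |h z - h (flip l z)| ≤ 2 * d) :
    ∑ e : Fin n → Bool, ((univ.filter fun l => e l = true).card : ℝ) * (∑ z, h z * rs e z) ^ 2 ≤
      n * (2 ^ n * (2 ^ n * d ^ 2)) := by
  have h1 : ∀ e : Fin n → Bool,
      ((univ.filter fun l => e l = true).card : ℝ) * (∑ z, h z * rs e z) ^ 2 =
        ∑ l, (∑ z, ((h z - h (flip l z)) / 2) * rs e z) ^ 2 := by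
    intro e
    simp only [coef_diff]
    rw [Finset.card_filter]
    push_cast
    rw [Finset.sum_mul]
    refine Finset.sum_congr rfl fun l _ => ?_
    split_ifs <;> simp
  simp only [h1]
  rw [Finset.sum_comm]
  have h2 : ∀ l : Fin n, ∑ e : Fin n → Bool, (∑ z, ((h z - h (flip l z)) / 2) * rs e z) ^ 2 ≤
      2 ^ n * (2 ^ n * d ^ 2) := by
    intro l
    rw [parseval]
    refine mul_le_mul_of_nonneg_left ?_ (by positivity)
    have h3 : ∀ z : Fin n → Bool, ((h z - h (flip l z)) / 2) ^ 2 ≤ d ^ 2 := by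
      intro z
      have h4 := abs_le.mp (hd z l)
      exact sq_le_sq' (by linarith [h4.1]) (by linarith [h4.2])
    calc ∑ z : Fin n → Bool, ((h z - h (flip l z)) / 2) ^ 2 ≤ ∑ _z : Fin n → Bool, d ^ 2 :=
          Finset.sum_le_sum fun z _ => h3 z
      _ = 2 ^ n * d ^ 2 := by simp
  calc _ ≤ ∑ _l : Fin n, (2 : ℝ) ^ n * (2 ^ n * d ^ 2) := Finset.sum_le_sum fun l _ => h2 l
    _ = _ := by simp

/-- The truncated Fourier coefficients. -/
noncomputable def trunc {n : ℕ} (h : (Fin n → Bool) → ℝ) (D : ℕ) (e : Fin n → Bool) : ℝ :=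
  if (univ.filter fun l => e l = true).card ≤ D then (∑ z, h z * rs e z) / 2 ^ n else 0

theorem low {n : ℕ} (h : (Fin n → Bool) → ℝ) (d : ℝ) (D : ℕ) (hD : 0 < D)
    (hd : ∀ z l, |h z - h (flip l z)| ≤ 2 * d) :
    ∑ z, h z ^ 2 - n * (2 ^ n * d ^ 2) / D ≤
      ∑ z, (2 * (h z * ∑ e, trunc h D e * rs e z) - (∑ e, trunc h D e * rs e z) ^ 2) := by
  have hN : (0 : ℝ) < 2 ^ n := by positivity
  have hD' : (0 : ℝ) < D := by exact_mod_cast hD
  have h1 : ∑ z, h z * ∑ e, trunc h D e * rs e z = ∑ e, trunc h D e * ∑ z, h z * rs e z := by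
    simp only [Finset.mul_sum]
    rw [Finset.sum_comm]
    refine Finset.sum_congr rfl fun e _ => Finset.sum_congr rfl fun z _ => by ring
  have h2 : ∑ z : Fin n → Bool, (∑ e, trunc h D e * rs e z) ^ 2 =
      2 ^ n * ∑ e, trunc h D e ^ 2 := by
    rw [← parseval]
    refine Finset.sum_congr rfl fun z _ => ?_
    simp only [rs_comm z]
  rw [Finset.sum_sub_distrib, ← Finset.mul_sum, h1, h2, Finset.mul_sum, Finset.mul_sum,
    ← Finset.sum_sub_distrib]
  have h3 := parseval h
  have h4 := influence h d hd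
  have h5 : ∀ e : Fin n → Bool, ((∑ z, h z * rs e z) ^ 2 -
      ((univ.filter fun l => e l = true).card : ℝ) * (∑ z, h z * rs e z) ^ 2 / D) / 2 ^ n ≤
      2 * (trunc h D e * ∑ z, h z * rs e z) - 2 ^ n * trunc h D e ^ 2 := by
    intro e
    set F := ∑ z, h z * rs e z with hF
    set k : ℕ := (univ.filter fun l => e l = true).card with hk
    unfold trunc
    rw [← hF, ← hk]
    split_ifs with hkD
    · have : 2 * (F / 2 ^ n * F) - 2 ^ n * (F / 2 ^ n) ^ 2 = F ^ 2 / 2 ^ n := by
        field_simp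
        ring
      rw [this]
      refine div_le_div_of_nonneg_right ?_ hN.le
      have : 0 ≤ (k : ℝ) * F ^ 2 / D := by positivity
      linarith
    · have hk' : (D : ℝ) ≤ k := by exact_mod_cast (not_le.mp hkD).le
      have : F ^ 2 ≤ (k : ℝ) * F ^ 2 / D := by
        rw [le_div_iff₀ hD']
        nlinarith [sq_nonneg F]
      have h6 : (F ^ 2 - (k : ℝ) * F ^ 2 / D) / 2 ^ n ≤ 0 :=
        div_nonpos_of_nonpos_of_nonneg (by linarith) hN.le
      simpa using h6
  refine le_trans ?_ (Finset.sum_le_sum fun e _ => h5 e)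
  rw [← Finset.sum_div, Finset.sum_sub_distrib, ← Finset.sum_div, h3, le_div_iff₀ hN]
  have h7 : (∑ e : Fin n → Bool, ((univ.filter fun l => e l = true).card : ℝ) *
      (∑ z, h z * rs e z) ^ 2) / D ≤ n * (2 ^ n * (2 ^ n * d ^ 2)) / D :=
    div_le_div_of_nonneg_right h4 hD'.le
  have h8 : (∑ z, h z ^ 2 - n * (2 ^ n * d ^ 2) / D) * 2 ^ n =
      2 ^ n * ∑ z, h z ^ 2 - n * (2 ^ n * (2 ^ n * d ^ 2)) / D := by ring
  rw [h8]
  linarith

theorem central (n : ℕ) : (Nat.centralBinom n) ^ 2 * (2 * n + 1) ≤ 16 ^ n := by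
  induction n with
  | zero => simp
  | succ n ih =>
    have h := Nat.succ_mul_centralBinom_succ n
    have h1 : ((n + 1) * Nat.centralBinom (n + 1)) ^ 2 * (2 * (n + 1) + 1) ≤
        (n + 1) ^ 2 * 16 ^ (n + 1) := by
      rw [h]
      have h2 : (2 * (2 * n + 1) * Nat.centralBinom n) ^ 2 * (2 * (n + 1) + 1) =
          (4 * (2 * n + 1) * (2 * n + 3)) * ((Nat.centralBinom n) ^ 2 * (2 * n + 1)) := by ring
      have h3 : 4 * (2 * n + 1) * (2 * n + 3) ≤ (n + 1) ^ 2 * 16 := by nlinarith
      rw [h2, pow_succ 16 n]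
      calc _ ≤ ((n + 1) ^ 2 * 16) * 16 ^ n := Nat.mul_le_mul h3 ih
        _ = _ := by ring
    have h4 : (n + 1) ^ 2 * ((Nat.centralBinom (n + 1)) ^ 2 * (2 * (n + 1) + 1)) ≤
        (n + 1) ^ 2 * 16 ^ (n + 1) := by
      refine le_trans (le_of_eq ?_) h1
      ring
    exact Nat.le_of_mul_le_mul_left h4 (by positivity)

theorem layer (n j : ℕ) :
    (univ.filter fun z : Fin n → Bool => (univ.filter fun l => z l = true).card = j).card ≤
      n.choose j := by
  have h : n.choose j = (Finset.powersetCard j (univ : Finset (Fin n))).card := by simp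
  rw [h]
  refine Finset.card_le_card_of_injOn (fun z => univ.filter fun l => z l = true) ?_ ?_
  · intro z hz
    simp only [Finset.coe_filter, Finset.mem_univ, true_and, Set.mem_ofPred_eq] at hz
    simp [Finset.mem_powersetCard, hz]
  · intro z _ y _ hzy
    funext l
    have := congrArg (fun s : Finset (Fin n) => l ∈ s) hzy
    simp only [Finset.mem_filter, Finset.mem_univ, true_and, eq_iff_iff] at this
    cases h1 : z l <;> cases h2 : y l <;> simp_all

/-- The sum of the signs. -/
noncomputable def ssum {n : ℕ} (z : Fin n → Bool) : ℝ := ∑ l, sg (z l)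

theorem ssum_eq {n : ℕ} (z : Fin n → Bool) :
    ssum z = n - 2 * ((univ.filter fun l => z l = true).card : ℝ) := by
  unfold ssum
  rw [Finset.card_filter]
  push_cast
  have : (n : ℝ) = ∑ _l : Fin n, (1 : ℝ) := by simp
  rw [this, Finset.mul_sum, ← Finset.sum_sub_distrib]
  refine Finset.sum_congr rfl fun l _ => ?_
  unfold sg
  split_ifs <;> norm_num

theorem small (k w : ℕ) (hk : 100 * w ^ 2 * 100 ≤ 2 * k + 1) :
    (((univ.filter fun z : Fin (2 * k) → Bool => |ssum z| < w).card : ℝ)) ≤
      7 / 100 * 2 ^ (2 * k) := by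
  have h1 : (univ.filter fun z : Fin (2 * k) → Bool => |ssum z| < w) ⊆
      (Finset.Ioo (k - w) (k + w)).biUnion fun j =>
        univ.filter fun z : Fin (2 * k) → Bool => (univ.filter fun l => z l = true).card = j := by
    intro z hz
    simp only [Finset.mem_filter, Finset.mem_univ, true_and] at hz
    rw [ssum_eq] at hz
    have h2 := abs_lt.mp hz
    simp only [Finset.mem_biUnion, Finset.mem_Ioo, Finset.mem_filter, Finset.mem_univ, true_and]
    refine ⟨_, ?_, rfl⟩
    set j : ℕ := (univ.filter fun l => z l = true).card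
    have h3 : 2 * k < 2 * j + w := by
      have : ((2 * k : ℕ) : ℝ) < ((2 * j + w : ℕ) : ℝ) := by push_cast at h2 ⊢; linarith [h2.2]
      exact_mod_cast this
    have h4 : 2 * j < 2 * k + w := by
      have : ((2 * j : ℕ) : ℝ) < ((2 * k + w : ℕ) : ℝ) := by push_cast at h2 ⊢; linarith [h2.1]
      exact_mod_cast this
    have h5 : w ≤ k := by nlinarith
    omega
  have h2 : (univ.filter fun z : Fin (2 * k) → Bool => |ssum z| < w).card ≤
      2 * w * Nat.centralBinom k := by
    refine le_trans (Finset.card_le_card h1) (le_trans Finset.card_biUnion_le ?_)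
    refine le_trans (Finset.sum_le_card_nsmul _ _ (Nat.centralBinom k) fun j _ =>
      le_trans (layer _ j) (Nat.choose_le_centralBinom j k)) ?_
    rw [smul_eq_mul, Nat.card_Ioo]
    exact Nat.mul_le_mul_right _ (by omega)
  have h3 : 100 * w * Nat.centralBinom k ≤ 2 ^ (2 * k) := by
    have h4 : (100 * w * Nat.centralBinom k) ^ 2 ≤ (2 ^ (2 * k)) ^ 2 := by
      have h5 : (2 ^ (2 * k)) ^ 2 = 16 ^ k := by
        rw [← pow_mul, show 2 * k * 2 = 4 * k by ring, pow_mul]
        norm_num
      rw [h5]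
      refine le_trans ?_ (central k)
      calc (100 * w * Nat.centralBinom k) ^ 2 = (Nat.centralBinom k) ^ 2 * (100 * w ^ 2 * 100) := by
            ring
        _ ≤ _ := Nat.mul_le_mul_left _ hk
    exact (Nat.pow_le_pow_iff_left (by norm_num)).mp h4
  have h2' : ((univ.filter fun z : Fin (2 * k) → Bool => |ssum z| < w).card : ℝ) ≤
      2 * w * Nat.centralBinom k := by exact_mod_cast h2
  have h3' : (100 * w * Nat.centralBinom k : ℝ) ≤ 2 ^ (2 * k) := by exact_mod_cast h3
  have h6 : (0 : ℝ) ≤ 2 ^ (2 * k) := by positivity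
  linarith

/-- The clipped sum. -/
noncomputable def cl {n : ℕ} (w : ℕ) (z : Fin n → Bool) : ℝ :=
  99 / 100 * max (-1) (min 1 (ssum z / w))

theorem cl_abs {n : ℕ} (w : ℕ) (z : Fin n → Bool) : |cl w z| ≤ 99 / 100 := by
  unfold cl
  have h1 : -1 ≤ max (-1) (min 1 (ssum z / w)) := le_max_left _ _
  have h2 : max (-1) (min 1 (ssum z / w)) ≤ 1 := max_le (by norm_num) (min_le_left _ _)
  rw [abs_le]
  constructor <;> linarith

theorem clip_neg (x : ℝ) : max (-1) (min 1 (-x)) = -max (-1) (min 1 x) := by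
  simp only [max_def, min_def]
  split_ifs <;> linarith

theorem clip_lip (x y : ℝ) : |max (-1) (min 1 x) - max (-1) (min 1 y)| ≤ |x - y| := by
  have h1 := le_abs_self (x - y)
  have h2 := neg_abs_le (x - y)
  rw [abs_le]
  simp only [max_def, min_def]
  split_ifs <;> constructor <;> linarith

theorem cl_sum {n : ℕ} (w : ℕ) : ∑ z : Fin n → Bool, cl w z = 0 := by
  have h1 : ∀ z : Fin n → Bool, cl w (fun l => !z l) = -cl w z := by
    intro z
    have h2 : ssum (fun l => !z l) = -ssum z := by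
      unfold ssum
      rw [← Finset.sum_neg_distrib]
      refine Finset.sum_congr rfl fun l _ => ?_
      unfold sg
      cases h : z l <;> simp [h]
    unfold cl
    rw [h2, neg_div, clip_neg]
    ring
  have h3 : ∑ z : Fin n → Bool, cl w z = ∑ z : Fin n → Bool, cl w (fun l => !z l) := by
    refine Finset.sum_bij' (fun z _ => fun l => !z l) (fun z _ => fun l => !z l) (by simp)
      (by simp) (fun z _ => by simp) (fun z _ => by simp) ?_
    intro z _
    simp
  simp only [h1, Finset.sum_neg_distrib] at h3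
  linarith

theorem cl_flip {n : ℕ} (w : ℕ) (hw : 1 ≤ w) (z : Fin n → Bool) (l : Fin n) :
    |cl w z - cl w (flip l z)| ≤ 2 * (1 / w) := by
  have hw' : (0 : ℝ) < w := by exact_mod_cast hw
  have h1 : |ssum z - ssum (flip l z)| ≤ 2 := by
    unfold ssum
    rw [← Finset.add_sum_erase univ _ (Finset.mem_univ l),
      ← Finset.add_sum_erase univ (fun i => sg (flip l z i)) (Finset.mem_univ l)]
    have h2 : ∑ i ∈ univ.erase l, sg (flip l z i) = ∑ i ∈ univ.erase l, sg (z i) := by
      refine Finset.sum_congr rfl fun i hi => ?_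
      unfold flip
      rw [Function.update_of_ne (Finset.mem_erase.mp hi).1]
    rw [h2]
    unfold flip sg
    cases h : z l <;> simp <;> norm_num
  have h3 := clip_lip (ssum z / w) (ssum (flip l z) / w)
  have h4 : |ssum z / w - ssum (flip l z) / w| ≤ 2 * (1 / w) := by
    rw [← sub_div, abs_div, abs_of_pos hw', mul_one_div]
    exact div_le_div_of_nonneg_right h1 hw'.le
  unfold cl
  rw [← mul_sub, abs_mul, abs_of_pos (by norm_num : (0 : ℝ) < 99 / 100)]
  have h5 := abs_nonneg (max (-1) (min 1 (ssum z / w)) - max (-1) (min 1 (ssum (flip l z) / w)))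
  linarith

theorem cl_sq {n : ℕ} (w : ℕ) (hw : 1 ≤ w) (z : Fin n → Bool) :
    (99 / 100) ^ 2 * (1 - if |ssum z| < w then 1 else 0) ≤ cl w z ^ 2 := by
  have hw' : (0 : ℝ) < w := by exact_mod_cast hw
  split_ifs with h
  · simp [sq_nonneg]
  · unfold cl
    rcases le_abs.mp (not_lt.mp h) with h1 | h1
    · have : 1 ≤ ssum z / w := by rw [le_div_iff₀ hw']; linarith
      rw [min_eq_left this, max_eq_right (by norm_num)]
      norm_num
    · have : ssum z / w ≤ -1 := by rw [div_le_iff₀ hw']; linarith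
      rw [min_eq_right (by linarith), max_eq_left this]
      norm_num

theorem key (n w : ℕ) (hw : 1 ≤ w) (hn : n = 10000 * w ^ 2) :
    9 / 10 * 2 ^ n ≤ ∑ z : Fin n → Bool, (2 * (cl w z * ∑ e, trunc (cl w) 1000000 e * rs e z) -
      (∑ e, trunc (cl w) 1000000 e * rs e z) ^ 2) := by
  have hw' : (0 : ℝ) < w := by exact_mod_cast hw
  refine le_trans ?_ (low (cl w) (1 / w) 1000000 (by norm_num) fun z l => cl_flip w hw z l)
  have h1 : (n : ℝ) * (2 ^ n * (1 / w) ^ 2) / (1000000 : ℕ) = 1 / 100 * 2 ^ n := by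
    have : (n : ℝ) = 10000 * (w : ℝ) ^ 2 := by rw [hn]; push_cast; ring
    rw [this]
    push_cast
    field_simp
    ring
  have h2 : (((univ.filter fun z : Fin n → Bool => |ssum z| < w).card : ℝ)) ≤ 7 / 100 * 2 ^ n := by
    have h3 : n = 2 * (5000 * w ^ 2) := by rw [hn]; ring
    subst h3
    exact small (5000 * w ^ 2) w (by nlinarith)
  have h4 : (99 / 100) ^ 2 * ((2 : ℝ) ^ n -
      ((univ.filter fun z : Fin n → Bool => |ssum z| < w).card : ℝ)) ≤
      ∑ z : Fin n → Bool, cl w z ^ 2 := by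
    refine le_trans (le_of_eq ?_) (Finset.sum_le_sum fun z _ => cl_sq w hw z)
    rw [← Finset.mul_sum, Finset.sum_sub_distrib, Finset.card_filter]
    simp
  have h5 : (0 : ℝ) ≤ 2 ^ n := by positivity
  rw [h1]
  nlinarith

theorem clip : ClipStmt := by
  intro w hw
  refine ⟨cl w, trunc (cl w) 1000000, cl_abs w, ?_, fun ξ l => cl_flip w hw ξ l, ?_, ?_⟩
  · rw [Fintype.expect_eq_sum_div_card, cl_sum, zero_div]
  · intro e he
    by_contra hc
    exact he (by unfold trunc; rw [if_neg hc])
  · rw [Fintype.expect_eq_sum_div_card, le_div_iff₀ (by positivity)]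
    have h := key _ w hw rfl
    simpa using h

end Pool.Agent.MP_36f78e_lc.H40
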